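import Pool.Agent.TH346.CG.Defs2

/-!
# A good scale (pigeonhole)
-/

set_option autoImplicit false

open Finset
open scoped Pointwise

namespace Pool.Agent.TH20.CG

open Pool.Agent.TH346.CG

section basic

variable {Γ : Type} [AddCommGroup Γ] [DecidableEq Γ]

lemma ks_zero (T : Finset Γ) : ks 0 T = {0} := rfl

lemma ks_succ (m : ℕ) (T : Finset Γ) : ks (m + 1) T = ks m T + T := rfl

lemma ks_add (a b : ℕ) (T : Finset Γ) : ks (a + b) T = ks a T + ks b T := by
  induction b with
  | zero => rw [Nat.add_zero, ks_zero, Finset.singleton_zero, add_zero]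
  | succ b ih => rw [← Nat.add_assoc, ks_succ, ih, ks_succ, add_assoc]

lemma ks_one (T : Finset Γ) : ks 1 T = T := by
  rw [show (1 : ℕ) = 0 + 1 from rfl, ks_succ, ks_zero, Finset.singleton_zero, zero_add]

lemma ks_mono_succ {T : Finset Γ} (h0 : 0 ∈ T) (m : ℕ) : ks m T ⊆ ks (m + 1) T := by
  intro x hx
  rw [ks_succ]
  have := Finset.add_mem_add hx h0
  rwa [add_zero] at this

lemma ks_mono {T : Finset Γ} (h0 : 0 ∈ T) {a b : ℕ} (h : a ≤ b) : ks a T ⊆ ks b T := by
  induction h with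
  | refl => exact subset_rfl
  | step _ ih => exact ih.trans (ks_mono_succ h0 _)

lemma zero_mem_ks {T : Finset Γ} (h0 : 0 ∈ T) (m : ℕ) : (0 : Γ) ∈ ks m T :=
  ks_mono h0 (Nat.zero_le m) (by rw [ks_zero]; exact Finset.mem_singleton_self _)

lemma neg_mem_ks {T : Finset Γ} (hT : -T = T) (m : ℕ) : ∀ x : Γ, x ∈ ks m T → -x ∈ ks m T := by
  induction m with
  | zero =>
    intro x hx
    rw [ks_zero, Finset.mem_singleton] at hx ⊢
    rw [hx, neg_zero]
  | succ m ih =>
    intro x hx
    rw [ks_succ, Finset.mem_add] at hx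
    obtain ⟨a, ha, b, hb, rfl⟩ := hx
    rw [ks_succ, neg_add]
    refine Finset.add_mem_add (ih a ha) ?_
    rw [← hT]
    exact Finset.neg_mem_neg hb

lemma ks_eq_nsmul (k : ℕ) (D : Finset Γ) : ks k D = nsmulRec k D := by
  induction k with
  | zero => rfl
  | succ k ih =>
    show ks k D + D = nsmulRec k D + D
    rw [ih]

lemma one_le_K {S : Finset Γ} (hne : S.Nonempty) {K : ℕ}
    (hK : (S + S + S).card ≤ K * S.card) : 1 ≤ K := by
  have h1 : 0 < (S + S + S).card := Finset.card_pos.2 ((hne.add hne).add hne)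
  rcases Nat.eq_zero_or_pos K with h | h
  · rw [h, zero_mul] at hK
    omega
  · exact h

/-- growth of the iterated sumsets -/
lemma card_ks (S : Finset Γ) (hne : S.Nonempty) (hS : -S = S) (K : ℕ)
    (hK : (S + S + S).card ≤ K * S.card) (m : ℕ) :
    (ks m (insert 0 S)).card ≤ 2 * (4 * K) ^ m * S.card := by
  have hK1 := one_le_K hne hK
  set T : Finset Γ := insert 0 S with hT
  have h0 : (0 : Γ) ∈ T := Finset.mem_insert_self _ _
  have hTne : T.Nonempty := ⟨0, h0⟩
  have hneg : -T = T := by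
    ext x
    rw [Finset.mem_neg']
    simp only [hT, Finset.mem_insert, neg_eq_zero]
    rw [← Finset.mem_neg', hS]
  have hS1 : 1 ≤ S.card := Finset.card_pos.2 hne
  have hTS : T.card ≤ 2 * S.card := by
    have : T.card ≤ S.card + 1 := Finset.card_insert_le _ _
    omega
  have hST : S.card ≤ T.card := Finset.card_le_card (Finset.subset_insert _ _)
  have h3 : (T + T + T).card ≤ 4 * K * T.card := by
    have hsub : T + T + T ⊆ ({0} ∪ S) ∪ ((S + S) ∪ (S + S + S)) := by
      intro x hx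
      rw [Finset.mem_add] at hx
      obtain ⟨y, hy, c, hc, rfl⟩ := hx
      rw [Finset.mem_add] at hy
      obtain ⟨a, ha, b, hb, rfl⟩ := hy
      simp only [Finset.mem_union, Finset.mem_singleton]
      rcases Finset.mem_insert.1 ha with rfl | ha
      · rcases Finset.mem_insert.1 hb with rfl | hb
        · rcases Finset.mem_insert.1 hc with rfl | hc
          · left; left; simp
          · left; right; simpa using hc
        · rcases Finset.mem_insert.1 hc with rfl | hc
          · left; right; simpa using hb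
          · right; left; rw [zero_add]; exact Finset.add_mem_add hb hc
      · rcases Finset.mem_insert.1 hb with rfl | hb
        · rcases Finset.mem_insert.1 hc with rfl | hc
          · left; right; simpa using ha
          · right; left; rw [add_zero]; exact Finset.add_mem_add ha hc
        · rcases Finset.mem_insert.1 hc with rfl | hc
          · right; left; rw [add_zero]; exact Finset.add_mem_add ha hb
          · right; right; exact Finset.add_mem_add (Finset.add_mem_add ha hb) hc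
    have e1 : S.card ≤ (S + S).card := Finset.card_le_card_add_right hne
    have e2 : (S + S).card ≤ (S + S + S).card := Finset.card_le_card_add_right hne
    have e3 := Finset.card_le_card hsub
    have e4 := Finset.card_union_le ({0} ∪ S) ((S + S) ∪ (S + S + S))
    have e5 := Finset.card_union_le ({0} : Finset Γ) S
    have e6 := Finset.card_union_le (S + S) (S + S + S)
    rw [Finset.card_singleton] at e5
    calc (T + T + T).card ≤ 4 * (S + S + S).card := by omega
      _ ≤ 4 * (K * S.card) := Nat.mul_le_mul_left _ hK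
      _ ≤ 4 * (K * T.card) := Nat.mul_le_mul_left _ (Nat.mul_le_mul_left _ hST)
      _ = 4 * K * T.card := by ring
  have h3' : ks 3 T = T + T + T := by
    show (((({0} : Finset Γ) + T) + T) + T) = _
    rw [Finset.singleton_zero, zero_add]
  have hc : 1 ≤ 4 * K := by omega
  have key : (ks m T).card ≤ (4 * K) ^ m * T.card := by
    rcases Nat.lt_or_ge m 3 with hm | hm
    · rcases Nat.eq_zero_or_pos m with rfl | hm0
      · rw [ks_zero, Finset.card_singleton, pow_zero, one_mul]
        exact Finset.card_pos.2 hTne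
      · calc (ks m T).card ≤ (ks 3 T).card := Finset.card_le_card (ks_mono h0 (by omega))
          _ ≤ 4 * K * T.card := by rw [h3']; exact h3
          _ ≤ (4 * K) ^ m * T.card := by
            refine Nat.mul_le_mul_right _ ?_
            calc 4 * K = (4 * K) ^ 1 := (pow_one _).symm
              _ ≤ (4 * K) ^ m := Nat.pow_le_pow_right (by omega) hm0
    · have h := Finset.small_nsmul_of_small_tripling (A := T) (K := ((4 * K : ℕ) : ℝ)) (m := m) hm
        (by
          have h4 : ((ks 3 T).card : ℝ) ≤ ((4 * K : ℕ) : ℝ) * (T.card : ℝ) := by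
            rw [h3']
            exact_mod_cast h3
          rw [ks_eq_nsmul] at h4
          exact h4) hneg
      have h5 : ((ks m T).card : ℝ) ≤ ((4 * K : ℕ) : ℝ) ^ (m - 2) * (T.card : ℝ) := by
        rw [ks_eq_nsmul]
        exact h
      have h6 : (ks m T).card ≤ (4 * K) ^ (m - 2) * T.card := by exact_mod_cast h5
      exact h6.trans (Nat.mul_le_mul_right _ (Nat.pow_le_pow_right (by omega) (by omega)))
  calc (ks m T).card ≤ (4 * K) ^ m * T.card := key
    _ ≤ (4 * K) ^ m * (2 * S.card) := Nat.mul_le_mul_left _ hTS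
    _ = 2 * (4 * K) ^ m * S.card := by ring

/-! ### the two lemmas on `nrm` -/

lemma nrm_zero (A R : Finset Γ) : nrm A R 0 = 0 := by
  unfold nrm
  rw [Finset.card_eq_zero, Finset.filter_eq_empty_iff]
  intro t _ h
  apply h
  rw [sub_zero]

lemma nrm_mono (A : Finset Γ) {R R' : Finset Γ} (h : R ⊆ R') (a : Γ) : nrm A R a ≤ nrm A R' a :=
  Finset.card_le_card (Finset.filter_subset_filter _ h)

/-- `nrm` of a sum -/
lemma nrm_add' (A R R' : Finset Γ) (a b : Γ) (h : ∀ t ∈ R, t - a ∈ R') :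
    nrm A R (a + b) ≤ nrm A R a + nrm A R' b := by
  classical
  unfold nrm
  have h1 : R.filter (fun t => ¬ (t ∈ A ↔ t - (a + b) ∈ A)) ⊆
      R.filter (fun t => ¬ (t ∈ A ↔ t - a ∈ A)) ∪
        (R'.filter (fun t => ¬ (t ∈ A ↔ t - b ∈ A))).image (fun t => t + a) := by
    intro t ht
    rw [Finset.mem_filter] at ht
    rw [Finset.mem_union, Finset.mem_filter, Finset.mem_image]
    by_cases hta : (t ∈ A ↔ t - a ∈ A)
    · right
      refine ⟨t - a, Finset.mem_filter.2 ⟨h t ht.1, ?_⟩, by abel⟩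
      intro h2
      apply ht.2
      rw [hta, h2, sub_sub]
    · exact Or.inl ⟨ht.1, hta⟩
  refine (Finset.card_le_card h1).trans ((Finset.card_union_le _ _).trans ?_)
  exact Nat.add_le_add_left Finset.card_image_le _

/-- `nrm` of the negative -/
lemma nrm_neg' (A R R' : Finset Γ) (b : Γ) (h : ∀ t ∈ R, t + b ∈ R') :
    nrm A R (-b) ≤ nrm A R' b := by
  classical
  unfold nrm
  have h1 : (R.filter (fun t => ¬ (t ∈ A ↔ t - (-b) ∈ A))).image (fun t => t + b) ⊆
      R'.filter (fun t => ¬ (t ∈ A ↔ t - b ∈ A)) := by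
    intro z hz
    rw [Finset.mem_image] at hz
    obtain ⟨t, ht, rfl⟩ := hz
    rw [Finset.mem_filter] at ht
    refine Finset.mem_filter.2 ⟨h t ht.1, ?_⟩
    intro h2
    apply ht.2
    rw [sub_neg_eq_add, h2, add_sub_cancel_right]
  rw [← Finset.card_image_of_injective _ (add_left_injective b)]
  exact Finset.card_le_card h1

lemma sub_mem_ks {T : Finset Γ} (hT : -T = T) (j s : ℕ) {t a : Γ} (ht : t ∈ ks j T)
    (ha : a ∈ ks s T) : t - a ∈ ks (j + s) T := by
  rw [ks_add, sub_eq_add_neg]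
  exact Finset.add_mem_add ht (neg_mem_ks hT s a ha)

lemma add_mem_ks {T : Finset Γ} (j s : ℕ) {t a : Γ} (ht : t ∈ ks j T)
    (ha : a ∈ ks s T) : t + a ∈ ks (j + s) T := by
  rw [ks_add]
  exact Finset.add_mem_add ht ha

theorem nrm_sub (A T : Finset Γ) (h0 : 0 ∈ T)
    (hT : -T = T) (j s : ℕ) (a b : Γ) (ha : a ∈ ks s T) (hb : b ∈ ks s T) :
    nrm A (ks j T) (a - b) ≤ nrm A (ks (j + 2 * s) T) a + nrm A (ks (j + 2 * s) T) b := by
  have h1 := nrm_add' A (ks j T) (ks (j + s) T) a (-b) (fun t ht => sub_mem_ks hT j s ht ha)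
  have h2 := nrm_neg' A (ks (j + s) T) (ks (j + s + s) T) b (fun t ht => add_mem_ks (j + s) s ht hb)
  have h3 := nrm_mono A (ks_mono h0 (show j ≤ j + 2 * s by omega)) a
  have e : j + s + s = j + 2 * s := by ring
  rw [e] at h2
  rw [sub_eq_add_neg]
  omega

theorem nrm_ks (A T E : Finset Γ) (h0 : 0 ∈ T)
    (hT : -T = T) (j k s q n : ℕ)
    (hE : ∀ e ∈ E, e ∈ ks s T ∧ q * nrm A (ks (j + s * k) T) e ≤ n) (h : Γ)
    (hh : h ∈ ks k E) : q * nrm A (ks j T) h ≤ k * n := by
  induction k generalizing j h with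
  | zero =>
    rw [ks_zero, Finset.mem_singleton] at hh
    rw [hh, nrm_zero, mul_zero]
    exact Nat.zero_le _
  | succ k ih =>
    rw [ks_succ, Finset.mem_add] at hh
    obtain ⟨g, hg, e, he, rfl⟩ := hh
    -- peel off `e` first
    have he' := hE e he
    have h1 := nrm_add' A (ks j T) (ks (j + s) T) e g (fun t ht => sub_mem_ks hT j s ht he'.1)
    have h2 : q * nrm A (ks (j + s) T) g ≤ k * n := by
      refine ih (j + s) ?_ g hg
      intro e' he2
      refine ⟨(hE e' he2).1, ?_⟩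
      have e3 : j + s + s * k = j + s * (k + 1) := by ring
      rw [e3]
      exact (hE e' he2).2
    have h3 : q * nrm A (ks j T) e ≤ n :=
      (Nat.mul_le_mul_left q (nrm_mono A (ks_mono h0 (Nat.le_add_right j _)) e)).trans he'.2
    rw [add_comm g e]
    calc q * nrm A (ks j T) (e + g) ≤ q * (nrm A (ks j T) e + nrm A (ks (j + s) T) g) :=
          Nat.mul_le_mul_left _ h1
      _ = q * nrm A (ks j T) e + q * nrm A (ks (j + s) T) g := by ring
      _ ≤ n + k * n := Nat.add_le_add h3 h2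
      _ = (k + 1) * n := by ring

omit [AddCommGroup Γ] in
/-- a maximal separated subset -/
lemma exists_separated (S : Finset Γ) (R : Γ → Γ → Prop) (hR : ∀ s ∈ S, R s s) :
    ∃ U ⊆ S, (∀ s ∈ S, ∃ u ∈ U, R s u) ∧ ∀ u ∈ U, ∀ v ∈ U, u ≠ v → ¬ R u v ∨ ¬ R v u := by
  classical
  obtain ⟨F, hF⟩ : ∃ F : Finset (Finset Γ), ∀ U, U ∈ F ↔ U ⊆ S ∧
      ∀ u ∈ U, ∀ v ∈ U, u ≠ v → ¬ R u v ∨ ¬ R v u :=
    ⟨S.powerset.filter (fun U => ∀ u ∈ U, ∀ v ∈ U, u ≠ v → ¬ R u v ∨ ¬ R v u), fun U => by
      rw [Finset.mem_filter, Finset.mem_powerset]⟩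
  have hne : F.Nonempty := ⟨∅, (hF ∅).2 ⟨Finset.empty_subset _, by simp⟩⟩
  obtain ⟨U, hU, hmax⟩ := Finset.exists_max_image F Finset.card hne
  rw [hF] at hU
  refine ⟨U, hU.1, ?_, hU.2⟩
  intro s hs
  by_contra hno
  push Not at hno
  have hsU : s ∉ U := fun h => hno s h (hR s hs)
  have h1 : insert s U ∈ F := by
    rw [hF]
    refine ⟨Finset.insert_subset hs hU.1, ?_⟩
    intro u hu v hv huv
    rcases Finset.mem_insert.1 hu with hu' | hu'
    · rcases Finset.mem_insert.1 hv with hv' | hv'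
      · exact absurd (hu'.trans hv'.symm) huv
      · left; rw [hu']; exact hno v hv'
    · rcases Finset.mem_insert.1 hv with hv' | hv'
      · right; rw [hv']; exact hno u hu'
      · exact hU.2 u hu' v hv' huv
  have h2 := hmax _ h1
  rw [Finset.card_insert_of_notMem hsU] at h2
  omega

end basic

/-- **The good scale.** -/
theorem good_scale (C d K : ℕ) : ∃ K₁ : ℕ, ∀ q₀ j₀ : ℕ, 1 ≤ q₀ → ∃ L : ℕ,
    ∀ (Γ : Type) [AddCommGroup Γ] [DecidableEq Γ] (A S : Finset Γ), S.Nonempty → -S = S →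
      (S + S + S).card ≤ K * S.card → Pack C d A →
      ∃ q j : ℕ, q₀ ≤ q ∧ j₀ ≤ j ∧ ∃ E : Finset Γ,
        (∀ a, a ∈ E ↔ a ∈ ks 2 (insert 0 S) ∧ q * nrm A (ks j (insert 0 S)) a ≤ S.card) ∧
        (ks 4 E).card ≤ K₁ * E.card ∧
        ∃ Y : Finset Γ, Y.card ≤ L ∧ ∀ s ∈ S, ∃ y ∈ Y, s - y ∈ E := by
  classical
  obtain ⟨c, hc⟩ : ∃ c, c = 4 * K := ⟨_, rfl⟩
  obtain ⟨B, hB⟩ : ∃ B, B = (8 * c ^ 24) ^ d := ⟨_, rfl⟩
  obtain ⟨C9, hC9⟩ : ∃ C9, C9 = 2 * c ^ 9 := ⟨_, rfl⟩
  refine ⟨2 * B * C9, fun q₀ j₀ hq₀ => ?_⟩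
  obtain ⟨M0, hM0⟩ : ∃ M0, M0 = C * (2 * c ^ (j₀ + 1) * q₀) ^ d := ⟨_, rfl⟩
  obtain ⟨n, hn⟩ : ∃ n, n = 2 * c ^ 2 * M0 := ⟨_, rfl⟩
  refine ⟨M0 * B ^ n, ?_⟩
  intro Γ _ _ A S hne hS hK hP
  have hK1 := one_le_K hne hK
  have hc1 : 1 ≤ c := by omega
  have hB1 : 1 ≤ B := by
    rw [hB]
    exact Nat.one_le_pow _ _ (Nat.mul_pos (by norm_num) (Nat.pow_pos hc1))
  have hC91 : 1 ≤ C9 := by
    rw [hC9]
    exact Nat.mul_pos (by norm_num) (Nat.pow_pos hc1)
  have hcard : ∀ m, (ks m (insert 0 S)).card ≤ 2 * c ^ m * S.card := by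
    intro m
    rw [hc]
    exact card_ks S hne hS K hK m
  obtain ⟨T, hT⟩ : ∃ T : Finset Γ, T = insert 0 S := ⟨_, rfl⟩
  rw [← hT] at hcard ⊢
  have h0 : (0 : Γ) ∈ T := by rw [hT]; exact Finset.mem_insert_self _ _
  have hST : S ⊆ T := by rw [hT]; exact Finset.subset_insert _ _
  have hTne : T.Nonempty := ⟨0, h0⟩
  have hTneg : -T = T := by
    ext x
    rw [Finset.mem_neg', hT]
    simp only [Finset.mem_insert, neg_eq_zero]
    rw [← Finset.mem_neg', hS]
  have hS1 : 1 ≤ S.card := Finset.card_pos.2 hne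
  let q : ℕ → ℕ := fun i => q₀ * 8 ^ i
  let j : ℕ → ℕ := fun i => j₀ + 24 * i
  let E : ℕ → Finset Γ := fun i => (ks 2 T).filter fun a => q i * nrm A (ks (j i) T) a ≤ S.card
  have hE : ∀ i a, a ∈ E i ↔ a ∈ ks 2 T ∧ q i * nrm A (ks (j i) T) a ≤ S.card := by
    intro i a
    exact Finset.mem_filter
  have hE0 : ∀ i, (0 : Γ) ∈ E i := by
    intro i
    rw [hE, nrm_zero, mul_zero]
    exact ⟨zero_mem_ks h0 2, Nat.zero_le _⟩
  -- (1)
  have step : ∀ i, (ks 4 (E (i + 1))).card ≤ C9 * (E i).card := by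
    intro i
    have hsub8 : ∀ x ∈ ks 4 (E (i + 1)), x ∈ ks 8 T := by
      have gen : ∀ k, ∀ x ∈ ks k (E (i + 1)), x ∈ ks (2 * k) T := by
        intro k
        induction k with
        | zero => intro x hx; exact hx
        | succ k ih =>
          intro x hx
          rw [ks_succ, Finset.mem_add] at hx
          obtain ⟨a, ha, b, hb, rfl⟩ := hx
          rw [show 2 * (k + 1) = 2 * k + 2 by ring]
          exact add_mem_ks _ _ (ih a ha) ((hE _ _).1 hb).1
      intro x hx
      exact gen 4 x hx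
    have hnrm : ∀ x ∈ ks 4 (E (i + 1)), q (i + 1) * nrm A (ks (j i + 16) T) x ≤ 4 * S.card := by
      intro x hx
      refine nrm_ks A T (E (i + 1)) h0 hTneg (j i + 16) 4 2 (q (i + 1)) S.card ?_ x hx
      intro e he
      have h1 := (hE _ _).1 he
      refine ⟨h1.1, ?_⟩
      have e1 : j i + 16 + 2 * 4 = j (i + 1) := by
        show j₀ + 24 * i + 16 + 2 * 4 = j₀ + 24 * (i + 1)
        ring
      rw [e1]
      exact h1.2
    have hcov : (ks 4 (E (i + 1)) + T).card ≤ C9 * T.card := by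
      have h1 : ks 4 (E (i + 1)) + T ⊆ ks 9 T := by
        intro x hx
        rw [Finset.mem_add] at hx
        obtain ⟨a, ha, b, hb, rfl⟩ := hx
        show a + b ∈ ks 8 T + T
        exact Finset.add_mem_add (hsub8 a ha) hb
      calc (ks 4 (E (i + 1)) + T).card ≤ (ks 9 T).card := Finset.card_le_card h1
        _ ≤ 2 * c ^ 9 * S.card := hcard 9
        _ ≤ 2 * c ^ 9 * T.card := Nat.mul_le_mul_left _ (Finset.card_le_card hST)
        _ = C9 * T.card := by rw [hC9]
    obtain ⟨F, hF, hFc, hFs⟩ := Finset.ruzsa_covering_add (K := (C9 : ℝ)) (A := ks 4 (E (i + 1)))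
      hTne (by exact_mod_cast hcov)
    have hFc' : F.card ≤ C9 := by exact_mod_cast hFc
    have hsub : ks 4 (E (i + 1)) ⊆ F + E i := by
      intro x hx
      have h1 := hFs hx
      rw [Finset.mem_add] at h1
      obtain ⟨y, hy, w, hw, hyw⟩ := h1
      rw [Finset.mem_add]
      refine ⟨y, hy, w, ?_, hyw⟩
      have hw' : w = x - y := by rw [← hyw]; abel
      rw [hE]
      constructor
      · rw [Finset.mem_sub] at hw
        obtain ⟨a, ha, b, hb, rfl⟩ := hw
        show a - b ∈ ks (1 + 1) T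
        refine sub_mem_ks hTneg 1 1 ?_ ?_
        · rw [ks_one]; exact ha
        · rw [ks_one]; exact hb
      · have h2 := nrm_sub A T h0 hTneg (j i) 8 x y (hsub8 x hx) (hsub8 y (hF hy))
        rw [← hw'] at h2
        have h3 := hnrm x hx
        have h4 := hnrm y (hF hy)
        have e2 : j i + 2 * 8 = j i + 16 := rfl
        rw [e2] at h2
        have e3 : q (i + 1) = 8 * q i := by
          show q₀ * 8 ^ (i + 1) = 8 * (q₀ * 8 ^ i)
          ring
        rw [e3] at h3 h4
        have h5 := Nat.mul_le_mul_left (8 * q i) h2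
        rw [mul_add] at h5
        have h6 : 8 * (q i * nrm A (ks (j i) T) w) ≤ 8 * S.card := by
          calc 8 * (q i * nrm A (ks (j i) T) w) = 8 * q i * nrm A (ks (j i) T) w := by ring
            _ ≤ 4 * S.card + 4 * S.card := h5.trans (Nat.add_le_add h3 h4)
            _ = 8 * S.card := by ring
        exact Nat.le_of_mul_le_mul_left h6 (by norm_num)
    calc (ks 4 (E (i + 1))).card ≤ (F + E i).card := Finset.card_le_card hsub
      _ ≤ F.card * (E i).card := Finset.card_add_le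
      _ ≤ C9 * (E i).card := Nat.mul_le_mul_right _ hFc'
  -- (2)
  have hM : ∀ i, C * (2 * c ^ (j i + 1) * q i) ^ d = M0 * B ^ i := by
    intro i
    have e1 : 2 * c ^ (j i + 1) * q i = (2 * c ^ (j₀ + 1) * q₀) * (8 * c ^ 24) ^ i := by
      show 2 * c ^ (j₀ + 24 * i + 1) * (q₀ * 8 ^ i) = 2 * c ^ (j₀ + 1) * q₀ * (8 * c ^ 24) ^ i
      rw [mul_pow, ← pow_mul, show j₀ + 24 * i + 1 = (j₀ + 1) + 24 * i by ring, pow_add]
      ring
    rw [e1, mul_pow, hM0, hB, ← pow_mul, ← pow_mul, mul_comm i d, ← mul_assoc]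
  have cover : ∀ i, ∃ U ⊆ S, U.card ≤ M0 * B ^ i ∧ ∀ s ∈ S, ∃ y ∈ U, s - y ∈ E i := by
    intro i
    obtain ⟨U, hUS, hU1, hU2⟩ := exists_separated S (fun s u => s - u ∈ E i)
      (fun s _ => by rw [sub_self]; exact hE0 i)
    refine ⟨U, hUS, ?_, hU1⟩
    rw [← hM i]
    have hmem : ∀ u ∈ S, ∀ v ∈ S, u - v ∈ ks 2 T := by
      intro u hu v hv
      show u - v ∈ ks (1 + 1) T
      refine sub_mem_ks hTneg 1 1 ?_ ?_
      · rw [ks_one]; exact hST hu
      · rw [ks_one]; exact hST hv
    -- one order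
    have ord : ∀ u ∈ S, ∀ v ∈ S, u - v ∉ E i →
        (ks (j i + 1) T).card ≤ 2 * c ^ (j i + 1) * q i *
          ((ks (j i + 1) T).filter fun z => ¬ (z - v ∈ A ↔ z - u ∈ A)).card := by
      intro u hu v hv huv
      have h1 : S.card < q i * nrm A (ks (j i) T) (u - v) := by
        by_contra hle
        exact huv ((hE _ _).2 ⟨hmem u hu v hv, not_lt.1 hle⟩)
      have h2 : nrm A (ks (j i) T) (u - v) ≤
          ((ks (j i + 1) T).filter fun z => ¬ (z - v ∈ A ↔ z - u ∈ A)).card := by
        unfold nrm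
        rw [← Finset.card_image_of_injective _ (add_left_injective v)]
        refine Finset.card_le_card ?_
        intro z hz
        rw [Finset.mem_image] at hz
        obtain ⟨t, ht, rfl⟩ := hz
        rw [Finset.mem_filter] at ht
        refine Finset.mem_filter.2 ⟨?_, ?_⟩
        · show t + v ∈ ks (j i) T + T
          exact Finset.add_mem_add ht.1 (hST hv)
        · intro h3
          apply ht.2
          have e1 : t + v - v = t := by abel
          have e2 : t + v - u = t - (u - v) := by abel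
          simp only [e1, e2] at h3
          exact h3
      calc (ks (j i + 1) T).card ≤ 2 * c ^ (j i + 1) * S.card := hcard _
        _ ≤ 2 * c ^ (j i + 1) * (q i * nrm A (ks (j i) T) (u - v)) :=
            Nat.mul_le_mul_left _ h1.le
        _ ≤ 2 * c ^ (j i + 1) * (q i *
          ((ks (j i + 1) T).filter fun z => ¬ (z - v ∈ A ↔ z - u ∈ A)).card) :=
            Nat.mul_le_mul_left _ (Nat.mul_le_mul_left _ h2)
        _ = _ := by ring
    refine hP (ks (j i + 1) T) U (2 * c ^ (j i + 1) * q i) ?_ ⟨0, zero_mem_ks h0 _⟩ ?_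
    · refine Nat.mul_pos (Nat.mul_pos (by norm_num) (Nat.pow_pos hc1)) ?_
      exact Nat.mul_pos hq₀ (Nat.pow_pos (by norm_num))
    · intro u hu v hv huv
      rcases hU2 u hu v hv huv with h | h
      · have h1 := ord u (hUS hu) v (hUS hv) h
        have e : ((ks (j i + 1) T).filter fun z => ¬ (z - v ∈ A ↔ z - u ∈ A)) =
            ((ks (j i + 1) T).filter fun z => ¬ (z - u ∈ A ↔ z - v ∈ A)) :=
          Finset.filter_congr fun z _ => not_congr Iff.comm
        rw [e] at h1
        exact h1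
      · exact ord v (hUS hv) u (hUS hu) h
  have hSE : ∀ i, S.card ≤ M0 * B ^ i * (E i).card := by
    intro i
    obtain ⟨U, _, hUc, hU⟩ := cover i
    have h1 : S ⊆ U + E i := by
      intro s hs
      obtain ⟨y, hy, h⟩ := hU s hs
      rw [Finset.mem_add]
      exact ⟨y, hy, s - y, h, by abel⟩
    calc S.card ≤ (U + E i).card := Finset.card_le_card h1
      _ ≤ U.card * (E i).card := Finset.card_add_le
      _ ≤ M0 * B ^ i * (E i).card := Nat.mul_le_mul_right _ hUc
  -- (3)
  have good : ∃ i ≤ n, (ks 4 (E i)).card ≤ 2 * B * C9 * (E i).card := by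
    by_contra hbad
    push Not at hbad
    have hdec : ∀ i, i ≤ n → (2 * B) ^ i * (E i).card ≤ (E 0).card := by
      intro i
      induction i with
      | zero => intro _; simp
      | succ i ih =>
        intro hi
        have h1 := hbad (i + 1) hi
        have h2 := step i
        have h3 : C9 * (2 * B * (E (i + 1)).card) ≤ C9 * (E i).card := by
          calc C9 * (2 * B * (E (i + 1)).card) = 2 * B * C9 * (E (i + 1)).card := by ring
            _ ≤ C9 * (E i).card := (h1.trans_le h2).le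
        have h4 := Nat.le_of_mul_le_mul_left h3 hC91
        calc (2 * B) ^ (i + 1) * (E (i + 1)).card = (2 * B) ^ i * (2 * B * (E (i + 1)).card) := by
              ring
          _ ≤ (2 * B) ^ i * (E i).card := Nat.mul_le_mul_left _ h4
          _ ≤ (E 0).card := ih (by omega)
    have h1 := hdec n le_rfl
    have h2 : (E 0).card ≤ (ks 2 T).card := Finset.card_le_card (Finset.filter_subset _ _)
    have h3 := hcard 2
    have h4 := hSE n
    have hEn : 0 < (E n).card := Finset.card_pos.2 ⟨0, hE0 n⟩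
    have h5 : 2 ^ n * (B ^ n * (E n).card) ≤ n * (B ^ n * (E n).card) := by
      calc 2 ^ n * (B ^ n * (E n).card) = (2 * B) ^ n * (E n).card := by rw [mul_pow]; ring
        _ ≤ 2 * c ^ 2 * S.card := h1.trans (h2.trans h3)
        _ ≤ 2 * c ^ 2 * (M0 * B ^ n * (E n).card) := Nat.mul_le_mul_left _ h4
        _ = (2 * c ^ 2 * M0) * (B ^ n * (E n).card) := by ring
        _ = n * (B ^ n * (E n).card) := by rw [← hn]
    have h6 := Nat.le_of_mul_le_mul_right h5 (Nat.mul_pos (Nat.pow_pos hB1) hEn)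
    have h7 : n < 2 ^ n := Nat.lt_two_pow_self
    omega
  obtain ⟨i, hi, hgood⟩ := good
  obtain ⟨U, _, hUc, hU⟩ := cover i
  refine ⟨q i, j i, ?_, Nat.le_add_right _ _, E i, hE i, hgood, U, ?_, hU⟩
  · exact Nat.le_mul_of_pos_right _ (Nat.pow_pos (by norm_num))
  · exact hUc.trans (Nat.mul_le_mul_left _ (Nat.pow_le_pow_right hB1 hi))

end Pool.Agent.TH20.CG
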